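import Mathlib

/-!
Maximum `p`-singular families in `GL_n(q)` need not be double-translates of Sylow `p`-subgroups.
-/

set_option autoImplicit false
set_option linter.unusedSectionVars false

namespace Pool.Agent.Results.MP_020c1a_co.Disproof

open Matrix

/-- `F` is a `p`-singular family: the order of `g h⁻¹` is divisible by `p` for all distinct
`g, h ∈ F`. -/
def IsPSingularFamily (p : ℕ) {G : Type} [Group G] (F : Set G) : Prop :=
  ∀ g ∈ F, ∀ h ∈ F, g ≠ h → p ∣ orderOf (g * h⁻¹)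

/-- `F` is a maximum `p`-singular family: no `p`-singular family has more elements. -/
def IsMaximum (p : ℕ) {G : Type} [Group G] (F : Set G) : Prop :=
  IsPSingularFamily p F ∧ ∀ F' : Set G, IsPSingularFamily p F' → F'.ncard ≤ F.ncard

/-- `F` is a double-translate `g P h` of a Sylow `p`-subgroup `P`. -/
def IsDoubleTranslate (p : ℕ) {G : Type} [Group G] (F : Set G) : Prop :=
  ∃ (P : Sylow p G) (g h : G), F = {x | ∃ s ∈ P, x = g * s * h}

section general

variable {G : Type} [Group G] [Finite G] {p : ℕ} [hp : Fact p.Prime]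

lemma dvd_orderOf_of_mem {P : Sylow p G} {x : G} (hx : x ∈ P) (h1 : x ≠ 1) : p ∣ orderOf x := by
  have h : IsPGroup p P := P.isPGroup'
  obtain ⟨k, hk⟩ := (IsPGroup.iff_orderOf.1 h) ⟨x, hx⟩
  rw [← Subgroup.orderOf_coe] at hk
  simp only at hk
  rw [hk]
  rcases Nat.eq_zero_or_pos k with h0 | h0
  · rw [h0, pow_zero, orderOf_eq_one_iff] at hk
    exact absurd hk h1
  · exact dvd_pow_self p h0.ne'

lemma orderOf_pow_of_mem {P : Sylow p G} {x : G} (hx : x ∈ P) : ∃ k, orderOf x = p ^ k := by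
  obtain ⟨k, hk⟩ := (IsPGroup.iff_orderOf.1 P.isPGroup') ⟨x, hx⟩
  refine ⟨k, ?_⟩
  rw [← Subgroup.orderOf_coe] at hk
  exact hk

/-- A double-translate containing `1` consists of elements of `p`-power order. -/
lemma IsDoubleTranslate.pow {F : Set G} (hF : IsDoubleTranslate p F) (h1 : (1 : G) ∈ F) {x : G}
    (hx : x ∈ F) : ∃ k, orderOf x = p ^ k := by
  obtain ⟨P, g, h, rfl⟩ := hF
  obtain ⟨s, hs, e⟩ := h1
  obtain ⟨t, ht, rfl⟩ := hx
  have hh : h = s⁻¹ * g⁻¹ := by
    have : g * s * h = 1 := e.symm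
    rw [mul_eq_one_iff_eq_inv'] at this
    rw [this, _root_.mul_inv_rev]
  have e2 : g * t * h = g * (t * s⁻¹) * g⁻¹ := by rw [hh]; group
  have hm : t * s⁻¹ ∈ P := mul_mem ht (inv_mem hs)
  obtain ⟨k, hk⟩ := orderOf_pow_of_mem hm
  refine ⟨k, ?_⟩
  rw [e2, ← MulAut.conj_apply, MulEquiv.orderOf_eq, hk]

/-- If the centre contains a nontrivial element of order prime to `p` and `p` divides the order,
then there is a `p`-singular family of the size of a Sylow `p`-subgroup that is not a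
double-translate. -/
lemma exists_family (z : G) (hz : ∀ x : G, Commute z x) (hz1 : z ≠ 1)
    (hzp : (orderOf z).Coprime p) (hdvd : p ∣ Nat.card G) (P : Sylow p G) :
    ∃ F : Set G, IsPSingularFamily p F ∧ F.ncard = Nat.card P ∧ ¬ IsDoubleTranslate p F := by
  classical
  have hbot : (P : Subgroup G) ≠ ⊥ := P.ne_bot_of_dvd_card hdvd
  obtain ⟨u, huP, hu1⟩ : ∃ v : G, v ∈ P ∧ v ≠ 1 := by
    obtain ⟨x, hx⟩ := (Subgroup.ne_bot_iff_exists_ne_one (H := (P : Subgroup G))).1 hbot
    exact ⟨x.1, x.2, fun h => hx (Subtype.ext h)⟩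
  have key : ∀ w ∈ P, orderOf (z * w) = orderOf z * orderOf w := by
    intro w hw
    apply (hz w).orderOf_mul_eq_mul_orderOf_of_coprime
    obtain ⟨k, hk⟩ := orderOf_pow_of_mem hw
    rw [hk]
    exact hzp.pow_right k
  have hcop : ∀ k, orderOf z ∣ p ^ k → False := by
    intro k hk
    have h1 : orderOf z = 1 := Nat.Coprime.eq_one_of_dvd (hzp.pow_right k) hk
    exact hz1 (orderOf_eq_one_iff.1 h1)
  have hzP : z * u ∉ P := by
    intro h
    have h2 : z ∈ P := by
      have := mul_mem h (inv_mem huP)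
      simpa using this
    obtain ⟨k, hk⟩ := orderOf_pow_of_mem h2
    exact hcop k (hk ▸ dvd_rfl)
  refine ⟨insert (z * u) ((P : Set G) \ {u}), ?_, ?_, ?_⟩
  · intro g hg h hh hne
    rw [Set.mem_insert_iff] at hg hh
    rcases hg with rfl | ⟨hgP, hgu⟩
    · rcases hh with rfl | ⟨hhP, hhu⟩
      · exact absurd rfl hne
      · have e : z * u * h⁻¹ = z * (u * h⁻¹) := mul_assoc _ _ _
        have hm : u * h⁻¹ ∈ P := mul_mem huP (inv_mem hhP)
        rw [e, key _ hm]
        refine Dvd.dvd.mul_left (dvd_orderOf_of_mem hm ?_) _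
        intro h1
        exact hhu (mul_inv_eq_one.1 h1).symm
    · rcases hh with rfl | ⟨hhP, hhu⟩
      · have e : g * (z * u)⁻¹ = (z * (u * g⁻¹))⁻¹ := by
          rw [_root_.mul_inv_rev, _root_.mul_inv_rev, _root_.mul_inv_rev, inv_inv]
          group
        have hm : u * g⁻¹ ∈ P := mul_mem huP (inv_mem hgP)
        rw [e, orderOf_inv, key _ hm]
        refine Dvd.dvd.mul_left (dvd_orderOf_of_mem hm ?_) _
        intro h1
        exact hgu (mul_inv_eq_one.1 h1).symm
      · have hm : g * h⁻¹ ∈ P := mul_mem hgP (inv_mem hhP)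
        refine dvd_orderOf_of_mem hm ?_
        intro h1
        exact hne (mul_inv_eq_one.1 h1)
  · rw [Set.ncard_insert_of_notMem (fun h => hzP h.1), Set.ncard_sdiff_singleton_add_one huP]
    exact Nat.card_coe_set_eq _
  · intro hD
    have h1 : (1 : G) ∈ insert (z * u) ((P : Set G) \ {u}) :=
      Set.mem_insert_of_mem _ ⟨one_mem P, fun h => hu1 h.symm⟩
    obtain ⟨k, hk⟩ := hD.pow h1 (Set.mem_insert _ _)
    rw [key u huP] at hk
    exact hcop k (hk ▸ Dvd.intro _ rfl)

/-- All double-translates have the size of a Sylow `p`-subgroup. -/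
lemma IsDoubleTranslate.ncard {F : Set G} (hF : IsDoubleTranslate p F) (P : Sylow p G) :
    F.ncard = Nat.card P := by
  obtain ⟨Q, g, h, rfl⟩ := hF
  have e : {x | ∃ s ∈ Q, x = g * s * h} = (fun s => g * s * h) '' (Q : Set G) := by
    ext x
    simp only [Set.mem_ofPred_eq, Set.mem_image, SetLike.mem_coe]
    constructor
    · rintro ⟨s, hs, rfl⟩; exact ⟨s, hs, rfl⟩
    · rintro ⟨s, hs, rfl⟩; exact ⟨s, hs, rfl⟩
  have hinj : Function.Injective (fun s : G => g * s * h) := by
    intro a b hab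
    simpa using hab
  rw [e, Set.ncard_image_of_injective _ hinj]
  have h1 : Nat.card (Q : Set G) = Nat.card P := by
    have := Q.card_eq_multiplicity
    rw [← P.card_eq_multiplicity] at this
    exact this
  rw [← h1]
  exact (Nat.card_coe_set_eq (Q : Set G)).symm

lemma translate_sylow (P : Sylow p G) : IsDoubleTranslate p (P : Set G) := by
  refine ⟨P, 1, 1, ?_⟩
  ext x
  simp

lemma not_iff {F : Set G} (P : Sylow p G) (h1 : IsPSingularFamily p F)
    (h2 : F.ncard = Nat.card P) (h3 : ¬ IsDoubleTranslate p F) :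
    ¬ ∀ F : Set G, IsMaximum p F ↔ IsDoubleTranslate p F := by
  intro h
  have hP := (h (P : Set G)).2 (translate_sylow P)
  apply h3
  apply (h F).1
  refine ⟨h1, fun F' hF' => ?_⟩
  rw [h2]
  have := hP.2 F' hF'
  rwa [← Nat.card_coe_set_eq (P : Set G)] at this

end general

section gl

variable (K : Type) [Field K] [Fintype K] (p : ℕ) [hp : Fact p.Prime] [CharP K p]

/-- The order of `GL_n(q)` is `q^(n(n-1)/2)` times a number prime to `p`. -/
lemma card_GL (n : ℕ) : ∃ m : ℕ, ¬ p ∣ m ∧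
    Nat.card (GL (Fin n) K) = Fintype.card K ^ (n * (n - 1) / 2) * m := by
  set q := Fintype.card K with hq
  have hpq : p ∣ q := by
    obtain ⟨f, hf⟩ := FiniteField.card K p
    rw [hq, hf.2]
    exact dvd_pow_self p f.pos.ne'
  refine ⟨∏ i : Fin n, (q ^ (n - i) - 1), ?_, ?_⟩
  · rw [hp.1.prime.dvd_finsetProd_iff]
    rintro ⟨i, -, hi⟩
    have h1 : p ∣ q ^ (n - (i : ℕ)) := dvd_pow hpq (by have := i.2; omega)
    have h2 : 1 ≤ q ^ (n - (i : ℕ)) := Nat.one_le_pow _ _ Fintype.card_pos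
    have h3 := (Nat.dvd_sub h1 hi)
    rw [Nat.sub_sub_self h2] at h3
    exact hp.1.one_lt.ne' (Nat.dvd_one.1 h3)
  · rw [card_GL_field, ← Finset.sum_range_id, Finset.sum_range, ← Finset.prod_pow_eq_pow_sum,
      ← Finset.prod_mul_distrib]
    apply Finset.prod_congr rfl
    intro i _
    rw [Nat.mul_sub, mul_one, ← pow_add]
    congr 2
    have := i.2
    omega

lemma card_sylow (n : ℕ) (P : Sylow p (GL (Fin n) K)) :
    Nat.card P = Fintype.card K ^ (n * (n - 1) / 2) := by
  obtain ⟨m, hm, hc⟩ := card_GL K p n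
  rw [P.card_eq_multiplicity, hc]
  obtain ⟨f, hf⟩ := FiniteField.card K p
  have hm0 : m ≠ 0 := by rintro rfl; exact hm (dvd_zero p)
  rw [hf.2, ← pow_mul, Nat.factorization_mul (pow_ne_zero _ hp.1.ne_zero) hm0,
    Finsupp.add_apply, Nat.factorization_eq_zero_of_not_dvd hm, Nat.Prime.factorization_pow hp.1]
  simp

lemma exists_scalar (h2 : 2 < Fintype.card K) (n : ℕ) (hn : 2 ≤ n) :
    ∃ z : GL (Fin n) K, (∀ x, Commute z x) ∧ z ≠ 1 ∧ (orderOf z).Coprime p := by
  classical
  obtain ⟨c, hc⟩ : ∃ c : Kˣ, c ≠ 1 := by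
    apply Fintype.exists_ne_of_one_lt_card
    rw [Fintype.card_units]
    omega
  have : Nonempty (Fin n) := ⟨⟨0, by omega⟩⟩
  refine ⟨GeneralLinearGroup.scalar (Fin n) c, fun x => GeneralLinearGroup.scalar_commute c x,
    ?_, ?_⟩
  · intro h
    apply hc
    have h1 : (GeneralLinearGroup.scalar (Fin n) c : Matrix (Fin n) (Fin n) K) = 1 := by
      rw [h]; rfl
    rw [GeneralLinearGroup.coe_scalar] at h1
    have h3 := congrFun (congrFun h1 ⟨0, by omega⟩) ⟨0, by omega⟩
    simp only [Matrix.scalar_apply, Matrix.diagonal_apply_eq, Matrix.one_apply_eq] at h3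
    exact Units.ext h3
  · have h1 : orderOf (GeneralLinearGroup.scalar (Fin n) c) ∣ orderOf c := orderOf_map_dvd _ c
    have h3 : orderOf c ∣ Fintype.card K - 1 := by
      rw [← Fintype.card_units]
      exact orderOf_dvd_card
    have h4 : (Fintype.card K - 1).Coprime p := by
      rw [Nat.coprime_comm, hp.1.coprime_iff_not_dvd]
      intro h
      obtain ⟨f, hf⟩ := FiniteField.card K p
      have h5 : p ∣ Fintype.card K := by rw [hf.2]; exact dvd_pow_self p f.pos.ne'
      have h6 := Nat.dvd_sub h5 h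
      rw [Nat.sub_sub_self Fintype.card_pos] at h6
      exact hp.1.one_lt.ne' (Nat.dvd_one.1 h6)
    exact Nat.Coprime.coprime_dvd_left (h1.trans h3) h4

end gl

section three

lemma ncard_le_index {G : Type} [Group G] [Finite G] {p : ℕ} (H : Subgroup G)
    (hH : ∀ x ∈ H, ¬ p ∣ orderOf x) {F : Set G} (hF : IsPSingularFamily p F) :
    F.ncard ≤ H.index := by
  have hinj : Set.InjOn (fun g : G => ((g⁻¹ : G) : G ⧸ H)) F := by
    intro g hg h hh e
    by_contra hne
    have e2 : (g⁻¹)⁻¹ * h⁻¹ ∈ H := QuotientGroup.eq.1 e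
    rw [inv_inv] at e2
    exact hH _ e2 (hF g hg h hh hne)
  rw [← Set.InjOn.ncard_image hinj, Subgroup.index, ← Set.ncard_univ]
  exact Set.ncard_le_ncard (Set.subset_univ _)

/-- the matrix `[[1,1],[0,1]]` over `F_3` -/
def t : GL (Fin 2) (ZMod 3) := ⟨!![1, 1; 0, 1], !![1, 2; 0, 1], by decide, by decide⟩

/-- the matrix `[[0,2],[1,2]]` over `F_3` -/
def b : GL (Fin 2) (ZMod 3) := ⟨!![0, 2; 1, 2], !![2, 1; 2, 0], by decide, by decide⟩

lemma three_dvd {G : Type} [Group G] {x : G} (h6 : x ^ 6 = 1) (h2 : x ^ 2 ≠ 1) :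
    3 ∣ orderOf x := by
  have h := orderOf_dvd_of_pow_eq_one h6
  by_contra h3
  apply h2
  apply orderOf_dvd_iff_pow_eq_one.1
  have : (orderOf x).Coprime 3 := by
    rw [Nat.coprime_comm]
    exact (Nat.Prime.coprime_iff_not_dvd (by norm_num)).2 h3
  exact this.dvd_of_dvd_mul_left (by simpa using h)

lemma fam_singular : IsPSingularFamily 3 ({1, t, b} : Set (GL (Fin 2) (ZMod 3))) := by
  have k1 : 3 ∣ orderOf t := three_dvd (by decide) (by decide)
  have k2 : 3 ∣ orderOf b := three_dvd (by decide) (by decide)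
  have k3 : 3 ∣ orderOf (t * b⁻¹) := three_dvd (by decide) (by decide)
  intro g hg h hh hne
  simp only [Set.mem_insert_iff, Set.mem_singleton_iff] at hg hh
  rcases hg with rfl | rfl | rfl <;> rcases hh with rfl | rfl | rfl
  · exact absurd rfl hne
  · rw [one_mul, orderOf_inv]; exact k1
  · rw [one_mul, orderOf_inv]; exact k2
  · rw [inv_one, mul_one]; exact k1
  · exact absurd rfl hne
  · exact k3
  · rw [inv_one, mul_one]; exact k2
  · have e : b * t⁻¹ = (t * b⁻¹)⁻¹ := by rw [_root_.mul_inv_rev, inv_inv]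
    rw [e, orderOf_inv]; exact k3
  · exact absurd rfl hne

lemma fam_ncard : ({1, t, b} : Set (GL (Fin 2) (ZMod 3))).ncard = 3 := by
  rw [Set.ncard_eq_three]
  exact ⟨1, t, b, by decide, by decide, by decide, rfl⟩

lemma card_GL23 : Nat.card (GL (Fin 2) (ZMod 3)) = 48 := by
  rw [card_GL_field]
  simp [Fin.prod_univ_two, ZMod.card]

lemma le_three {F : Set (GL (Fin 2) (ZMod 3))} (hF : IsPSingularFamily 3 F) : F.ncard ≤ 3 := by
  have : Fact (Nat.Prime 2) := ⟨Nat.prime_two⟩
  let Q : Sylow 2 (GL (Fin 2) (ZMod 3)) := default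
  have hQ : Nat.card Q = 16 := by
    rw [Q.card_eq_multiplicity, card_GL23]
    have : Nat.factorization 48 2 = 4 := by
      rw [show (48 : ℕ) = 2 ^ 4 * 3 by norm_num,
        Nat.factorization_mul (by norm_num) (by norm_num), Finsupp.add_apply,
        Nat.Prime.factorization_pow Nat.prime_two,
        Nat.factorization_eq_zero_of_not_dvd (by norm_num : ¬ 2 ∣ 3)]
      simp
    rw [this]; norm_num
  have hidx : (Q : Subgroup (GL (Fin 2) (ZMod 3))).index = 3 := by
    have h1 := (Q : Subgroup (GL (Fin 2) (ZMod 3))).card_mul_index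
    rw [card_GL23] at h1
    have h2 : Nat.card (Q : Subgroup (GL (Fin 2) (ZMod 3))) = 16 := hQ
    rw [h2] at h1
    omega
  refine le_trans (ncard_le_index (Q : Subgroup (GL (Fin 2) (ZMod 3))) ?_ hF) hidx.le
  intro x hx h3
  obtain ⟨k, hk⟩ := orderOf_pow_of_mem (P := Q) hx
  rw [hk] at h3
  have := (Nat.Prime.dvd_of_dvd_pow (by norm_num : Nat.Prime 3) h3)
  norm_num at this

/-- In a double-translate `D`, `y x⁻¹ y ∈ D` for all `x, y ∈ D`. -/
lemma IsDoubleTranslate.mem {G : Type} [Group G] {p : ℕ} {D : Set G} (hD : IsDoubleTranslate p D)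
    {x y : G} (hx : x ∈ D) (hy : y ∈ D) : y * x⁻¹ * y ∈ D := by
  obtain ⟨P, g, h, rfl⟩ := hD
  obtain ⟨s, hs, rfl⟩ := hx
  obtain ⟨r, hr, rfl⟩ := hy
  refine ⟨r * s⁻¹ * r, mul_mem (mul_mem hr (inv_mem hs)) hr, ?_⟩
  group

lemma check (z : (ZMod 3)ˣ) {x : GL (Fin 2) (ZMod 3)}
    (hx : (∃ u : (ZMod 3)ˣ, x = GeneralLinearGroup.scalar (Fin 2) u * 1) ∨
      (∃ u : (ZMod 3)ˣ, x = GeneralLinearGroup.scalar (Fin 2) u * t) ∨
      ∃ u : (ZMod 3)ˣ, x = GeneralLinearGroup.scalar (Fin 2) u * b) :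
    GeneralLinearGroup.scalar (Fin 2) z * (t * t) ≠ x := by
  intro h
  have e00 := congrArg (fun g : GL (Fin 2) (ZMod 3) => (g : Matrix (Fin 2) (Fin 2) (ZMod 3)) 0 0) h
  have e01 := congrArg (fun g : GL (Fin 2) (ZMod 3) => (g : Matrix (Fin 2) (Fin 2) (ZMod 3)) 0 1) h
  have hz : (z : ZMod 3) ≠ 0 := z.ne_zero
  rcases hx with ⟨u, rfl⟩ | ⟨u, rfl⟩ | ⟨u, rfl⟩
  · simp [t, Matrix.mul_apply, Fin.sum_univ_two, Matrix.scalar_apply] at e00 e01
    revert e00 e01 hz
    generalize (z : ZMod 3) = z'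
    generalize (u : ZMod 3) = u'
    revert z' u'
    decide
  · simp [t, Matrix.mul_apply, Fin.sum_univ_two, Matrix.scalar_apply] at e00 e01
    revert e00 e01 hz
    generalize (z : ZMod 3) = z'
    generalize (u : ZMod 3) = u'
    revert z' u'
    decide
  · simp [t, b, Matrix.mul_apply, Fin.sum_univ_two, Matrix.scalar_apply] at e00 e01

lemma not_translate (c : GL (Fin 2) (ZMod 3) → (ZMod 3)ˣ) :
    ¬ IsDoubleTranslate 3 ((fun g => GeneralLinearGroup.scalar (Fin 2) (c g) * g) ''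
      ({1, t, b} : Set (GL (Fin 2) (ZMod 3)))) := by
  intro hD
  have hx : GeneralLinearGroup.scalar (Fin 2) (c 1) * 1 ∈
      ((fun g => GeneralLinearGroup.scalar (Fin 2) (c g) * g) ''
      ({1, t, b} : Set (GL (Fin 2) (ZMod 3)))) := ⟨1, by simp, rfl⟩
  have hy : GeneralLinearGroup.scalar (Fin 2) (c t) * t ∈
      ((fun g => GeneralLinearGroup.scalar (Fin 2) (c g) * g) ''
      ({1, t, b} : Set (GL (Fin 2) (ZMod 3)))) := ⟨t, by simp, rfl⟩
  obtain ⟨g, hg, e⟩ := hD.mem hx hy
  have e2 : GeneralLinearGroup.scalar (Fin 2) (c t) * t *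
      (GeneralLinearGroup.scalar (Fin 2) (c 1) * 1)⁻¹ *
      (GeneralLinearGroup.scalar (Fin 2) (c t) * t) =
      GeneralLinearGroup.scalar (Fin 2) (c t * (c 1)⁻¹ * c t) * (t * t) := by
    have h1 : ∀ (u : (ZMod 3)ˣ) (A : GL (Fin 2) (ZMod 3)),
      GeneralLinearGroup.scalar (Fin 2) u * A = A * GeneralLinearGroup.scalar (Fin 2) u :=
      fun u A => GeneralLinearGroup.scalar_commute u A
    have h2 : ∀ (u : (ZMod 3)ˣ) (A : GL (Fin 2) (ZMod 3)),
        t * (GeneralLinearGroup.scalar (Fin 2) u * A) =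
          GeneralLinearGroup.scalar (Fin 2) u * (t * A) := by
      intro u A
      rw [← mul_assoc, ← h1, mul_assoc]
    simp only [mul_one, ← map_inv, mul_assoc, h2, map_mul]
  rw [e2] at e
  refine check (c t * (c 1)⁻¹ * c t) ?_ e.symm
  simp only [Set.mem_insert_iff, Set.mem_singleton_iff] at hg
  rcases hg with rfl | rfl | rfl
  · exact Or.inl ⟨c 1, rfl⟩
  · exact Or.inr (Or.inl ⟨c t, rfl⟩)
  · exact Or.inr (Or.inr ⟨c b, rfl⟩)

end three

/-- **The conjecture is false.**
(1) For every finite field `K` with `q > 2` elements (of characteristic `p`) and every `n ≥ 2` there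
is a `p`-singular family in `GL_n(K)` with exactly `q^(n(n-1)/2)` elements (the size of the Sylow
`p`-subgroups) that is not a double-translate of a Sylow `p`-subgroup; hence the maximum
`p`-singular families of `GL_n(K)` are not exactly these double-translates.
(2) In `GL_2(F_3)` the maximum size is `3` and there is a maximum `3`-singular family `F` which does
not become a double-translate when its members are multiplied by arbitrary scalar matrices. -/
theorem result :
    (∀ (K : Type) [Field K] [Fintype K] (p : ℕ) [Fact p.Prime] [CharP K p],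
      2 < Fintype.card K → ∀ n : ℕ, 2 ≤ n →
        (∃ F : Set (GL (Fin n) K), IsPSingularFamily p F ∧
          F.ncard = Fintype.card K ^ (n * (n - 1) / 2) ∧ ¬ IsDoubleTranslate p F) ∧
        ¬ ∀ F : Set (GL (Fin n) K), IsMaximum p F ↔ IsDoubleTranslate p F) ∧
    (∃ F : Set (GL (Fin 2) (ZMod 3)), IsMaximum 3 F ∧ F.ncard = 3 ∧
      ∀ c : GL (Fin 2) (ZMod 3) → (ZMod 3)ˣ,
        ¬ IsDoubleTranslate 3 ((fun g => GeneralLinearGroup.scalar (Fin 2) (c g) * g) '' F)) := by
  constructor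
  · intro K _ _ p _ _ h2 n hn
    classical
    obtain ⟨z, hz, hz1, hzp⟩ := exists_scalar K p h2 n hn
    have hdvd : p ∣ Nat.card (GL (Fin n) K) := by
      obtain ⟨m, -, hm⟩ := card_GL K p n
      rw [hm]
      obtain ⟨f, hf⟩ := FiniteField.card K p
      have h5 : p ∣ Fintype.card K := by rw [hf.2]; exact dvd_pow_self p f.pos.ne'
      refine Dvd.dvd.mul_right (dvd_pow h5 ?_) _
      have : 2 * 1 ≤ n * (n - 1) := Nat.mul_le_mul hn (by omega)
      omega
    let P : Sylow p (GL (Fin n) K) := default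
    obtain ⟨F, h3, h4, h5⟩ := exists_family z hz hz1 hzp hdvd P
    exact ⟨⟨F, h3, h4.trans (card_sylow K p n P), h5⟩, not_iff P h3 h4 h5⟩
  · refine ⟨{1, t, b}, ⟨fam_singular, fun F' hF' => ?_⟩, fam_ncard, not_translate⟩
    rw [fam_ncard]
    exact le_three hF'

end Pool.Agent.Results.MP_020c1a_co.Disproof
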